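import Mathlib
import Pool.Agent.BBD.Degen

/-!
# Restriction to a general fibre: linear algebra

`V` is the cohomology of the total space of a family over a projective variety of dimension `b`, `U` is
the cohomology of a general fibre, which is of dimension `d`. The operator `A` is the product with an
ample class of the base, `B` is the product with a relatively ample class, `R` is the restriction
to the fibre and `P` is its adjoint.
-/

namespace Pool.Agent.BBD

set_option linter.unusedSectionVars false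

universe u v w

variable {K : Type u} [Field K] {V : Type v} [AddCommGroup V] [Module K V] [FiniteDimensional K V]
  {U : Type w} [AddCommGroup U] [Module K U]

/-- The data of the restriction to a fibre. -/
structure PervFibre (G : ℤ → ℤ → Submodule K V) (d : ℤ) (b : ℕ) (A B : Module.End K V)
    (θ : Module.End K U) (R : V →ₗ[K] U) (P : U →ₗ[K] V) (κ : K) : Prop where
  perv : Perv G (d + b) A B
  A_pow : A ^ (b + 1) = 0
  RB : ∀ v, R (B v) = θ (R v)
  PR : ∀ v, P (R v) = κ • (A ^ b) v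
  R_zero : ∀ j m, j < m - d → ∀ v ∈ G j m, R v = 0
  R_inj : ∀ m, ∀ v ∈ G (m - d) m, R v = 0 → v = 0
  range : ∀ j m, m - d < j → ∀ v ∈ G j m, v = 0

namespace PervFibre

variable {G : ℤ → ℤ → Submodule K V} {d : ℤ} {b : ℕ} {A B : Module.End K V}
  {θ : Module.End K U} {R : V →ₗ[K] U} {P : U →ₗ[K] V} {κ : K}
  (H : PervFibre G d b A B θ R P κ)

include H

lemma R_upTo {j m : ℤ} (hj : j < m - d) {v : V} (hv : v ∈ upTo G j m) : R v = 0 := by
  refine upTo_induction (P := fun v => R v = 0) (map_zero _) (fun i hi v hv => ?_)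
    (fun v w hv hw => by rw [map_add, hv, hw, add_zero]) hv
  exact H.R_zero i m (by omega) v hv

lemma RB_pow (k : ℕ) (v : V) : R ((B ^ k) v) = (θ ^ k) (R v) := by
  induction k with
  | zero => simp
  | succ k ih => rw [pow_succ', pow_succ', Module.End.mul_apply, Module.End.mul_apply, H.RB, ih]

/-- The restriction only depends on the component of perverse degree `m - d`. -/
lemma exists_top {m : ℤ} {v : V} (hv : v ∈ ⨆ j : ℤ, G j m) : ∃ u ∈ G (m - d) m, R u = R v := by
  induction hv using Submodule.iSup_induction' with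
  | mem j x hx =>
    rcases lt_trichotomy j (m - d) with h | h | h
    · exact ⟨0, zero_mem _, by rw [H.R_zero j m h x hx, map_zero]⟩
    · subst h; exact ⟨x, hx, rfl⟩
    · exact ⟨0, zero_mem _, by rw [H.range j m h x hx]⟩
  | zero => exact ⟨0, zero_mem _, rfl⟩
  | add x y _ _ hx hy =>
    obtain ⟨u, hu, h1⟩ := hx
    obtain ⟨u', hu', h2⟩ := hy
    exact ⟨u + u', add_mem hu hu', by rw [map_add, map_add, h1, h2]⟩

/-- A diagonal operator commutes with the restriction up to a factor. -/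
lemma R_diag {m : ℤ} {v : V} (hv : v ∈ ⨆ j : ℤ, G j m) (s : K) :
    R (H.perv.D s v) = s ^ (m - d) • R v := by
  induction hv using Submodule.iSup_induction' with
  | mem j x hx =>
    rw [H.perv.D_apply s hx, map_smul]
    rcases lt_trichotomy j (m - d) with h | h | h
    · rw [H.R_zero j m h x hx, smul_zero, smul_zero]
    · rw [h]
    · rw [H.range j m h x hx, map_zero, smul_zero, smul_zero]
  | zero => rw [map_zero, map_zero, smul_zero]
  | add x y _ _ hx hy => rw [map_add, map_add, map_add, hx, hy, smul_add]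

/-- The hard Lefschetz theorem for the image of the restriction. -/
lemma exists_lower (k : ℕ) {v : V} (hv : v ∈ ⨆ j : ℤ, G j (d + k)) :
    ∃ u ∈ G (-k) (d - k), (θ ^ k) (R u) = R v := by
  obtain ⟨v', hv', h1⟩ := H.exists_top hv
  rw [show d + (k : ℤ) - d = k by ring] at hv'
  have e : d + (k : ℤ) = d - k + 2 * k := by ring
  rw [e] at hv'
  obtain ⟨u, hu, h2⟩ := H.perv.B_surj k (d - k) v' hv'
  refine ⟨u, hu, ?_⟩
  have h3 := H.R_upTo (j := k - 1) (m := d - k + 2 * k) (by omega) h2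
  rw [map_sub, sub_eq_zero] at h3
  rw [← H.RB_pow, h3, h1]

/-- The operator `A ^ b` vanishes in the relevant range. -/
lemma A_pow_zero {j m : ℤ} (hj : d < m - j) {v : V} (hv : v ∈ G j m) : (A ^ b) v = 0 := by
  have hmem : ∀ k : ℕ, (A ^ k) v ∈ G j (m + 2 * k) := by
    intro k
    induction k with
    | zero => simpa using hv
    | succ k ih =>
      rw [pow_succ', Module.End.mul_apply]
      have := H.perv.A_mem _ _ _ ih
      convert this using 2
      push_cast; ring
  obtain ⟨r, hr⟩ : ∃ r : ℕ, (r : ℤ) = m + 2 * b - (d + b + j) :=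
    ⟨(m + 2 * b - (d + b + j)).toNat, by omega⟩
  have h1 := hmem b
  rw [show m + 2 * (b : ℤ) = d + b + j + r by rw [hr]; ring] at h1
  obtain ⟨u, -, hu⟩ := H.perv.A_surj j r _ h1
  have h2 : b + 1 ≤ r := by omega
  rw [← hu, ← Nat.sub_add_cancel h2, pow_add, H.A_pow, mul_zero, LinearMap.zero_apply]

lemma A_pow_upTo {j m : ℤ} (hj : d < m - j) {v : V} (hv : v ∈ upTo G j m) : (A ^ b) v = 0 := by
  refine upTo_induction (P := fun v => (A ^ b) v = 0) (map_zero _) (fun i hi v hv => ?_)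
    (fun v w hv hw => by rw [map_add, hv, hw, add_zero]) hv
  exact H.A_pow_zero (by omega) hv

/-- The operator `B₂ ^ (k + 1)` kills the lifts of primitive elements. -/
lemma B₂_pow_zero (k : ℕ) {x : V} (hx : x ∈ G (-k) (d - k)) (h0 : (θ ^ (k + 1)) (R x) = 0) :
    (H.perv.B₂ ^ (k + 1)) x = 0 := by
  have h1 := H.perv.B₂_pow_mem hx (k + 1)
  have h2 := H.perv.B_pow_sub hx (k + 1)
  have e1 : (-k : ℤ) + 2 * ((k + 1 : ℕ) : ℤ) = d - k + 2 * ((k + 1 : ℕ) : ℤ) - d := by
    push_cast; ring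
  have h3 := H.R_upTo (by omega) h2
  rw [map_sub, H.RB_pow, h0, zero_sub, neg_eq_zero] at h3
  rw [e1] at h1
  exact H.R_inj _ _ h1 h3

/-- The image of a lift of a primitive element. -/
lemma PR_prim (k : ℕ) {x : V} (hx : x ∈ G (-k) (d - k)) :
    P ((θ ^ k) (R x)) = κ • (A ^ b) ((H.perv.B₂ ^ k) x) := by
  have h2 := H.perv.B_pow_sub hx k
  have h3 := H.A_pow_upTo (by omega) h2
  rw [map_sub, sub_eq_zero] at h3
  rw [← H.RB_pow, H.PR, h3]

/-- The Lefschetz operator of the degeneration on a lift of a primitive element. -/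
lemma AB_pow (k : ℕ) {x : V} (hx : x ∈ G (-k) (d - k)) (h0 : (θ ^ (k + 1)) (R x) = 0) :
    ((A + H.perv.B₂) ^ (b + k)) x =
      ((b + k).choose b : K) • (A ^ b) ((H.perv.B₂ ^ k) x) := by
  rw [H.perv.comm_B₂.add_pow, LinearMap.sum_apply, Finset.sum_eq_single b]
  · rw [Nat.add_sub_cancel_left, Module.End.mul_apply, Module.End.mul_apply, Module.End.natCast_apply,
      map_nsmul, map_nsmul, Nat.cast_smul_eq_nsmul]
  · intro i hi hib
    rw [Finset.mem_range] at hi
    rw [Module.End.mul_apply, Module.End.mul_apply, Module.End.natCast_apply, map_nsmul, map_nsmul]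
    rcases lt_or_gt_of_ne hib with h | h
    · have h1 : b + k - i = (b + k - i - (k + 1)) + (k + 1) := by omega
      rw [h1, pow_add, Module.End.mul_apply, H.B₂_pow_zero k hx h0, map_zero, map_zero, smul_zero]
    · have h1 : i = (i - (b + 1)) + (b + 1) := by omega
      rw [h1, pow_add, H.A_pow, mul_zero, LinearMap.zero_apply, smul_zero]
  · intro h
    exact absurd (Finset.mem_range.2 (by omega)) h

variable [CharZero K]

/-- **The degeneration argument.** -/
theorem limit (hκ : κ ≠ 0) (k : ℕ) {x : V} (hx : x ∈ G (-k) (d - k))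
    (h0 : (θ ^ (k + 1)) (R x) = 0) (𝒜 : Submodule K V)
    (h𝒜 : ∀ s : ℕ, (∀ v ∈ ⨆ j : ℤ, G j (d - k), ((A + (s : K) ^ 2 • B) ^ (b + k)) v = 0 → v = 0) →
      ∃ v ∈ (⨆ j : ℤ, G j (d - k)) ⊓ 𝒜,
        ((A + (s : K) ^ 2 • B) ^ (b + k)) v = P ((θ ^ k) (R x))) :
    R x ∈ ((⨆ j : ℤ, G j (d - k)) ⊓ 𝒜).map R := by
  classical
  set E : Submodule K V := ⨆ j : ℤ, G j (d - k) with hE
  set w : V := P ((θ ^ k) (R x)) with hw
  set r : ℕ := b + k with hr
  have hxE : x ∈ E := Submodule.mem_iSup_of_mem _ hx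
  have er : d + b - (r : ℤ) = d - k := by rw [hr]; push_cast; ring
  -- the limit
  set C : K := ((b + k).choose b : K) with hC
  have hC0 : C ≠ 0 := by
    rw [hC]
    exact_mod_cast (Nat.choose_pos (Nat.le_add_right b k)).ne'
  set y₀ : V := (κ / C) • x with hy₀
  have hy₀E : y₀ ∈ E := E.smul_mem _ hxE
  have hy₀w : (H.perv.Φ 0 ^ r) y₀ = w := by
    rw [H.perv.Φ_zero, hy₀, map_smul, hr, H.AB_pow k hx h0, hw, H.PR_prim k hx, smul_smul,
      div_mul_cancel₀ _ hC0]
  -- `w` is homogeneous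
  have hwmem : w ∈ G k (d - k + 2 * k + 2 * b) := by
    rw [hw, H.PR_prim k hx]
    refine Submodule.smul_mem _ _ ?_
    have h1 := H.perv.B₂_pow_mem hx k
    rw [show (-k : ℤ) + 2 * k = k by ring] at h1
    have h2 : ∀ i : ℕ, (A ^ i) ((H.perv.B₂ ^ k) x) ∈ G k (d - k + 2 * k + 2 * i) := by
      intro i
      induction i with
      | zero => simpa using h1
      | succ i ih =>
        rw [pow_succ', Module.End.mul_apply]
        have := H.perv.A_mem _ _ _ ih
        convert this using 2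
        push_cast; ring
    exact h2 b
  -- the first family
  let φ₁ : K → E →ₗ[K] V := fun s => (H.perv.Φ s ^ r) ∘ₗ E.subtype
  have hφ₁ : φ₁ ∈ polyFam K E V := comp_mem (pow_mem' H.perv.Φ_mem r) (const_mem _)
  have h1 : Function.Injective (φ₁ 0) := by
    rw [injective_iff_map_eq_zero]
    intro v hv
    have h2 : ((A + H.perv.B₂) ^ r) (v : V) = 0 := by rw [← H.perv.Φ_zero]; exact hv
    refine Subtype.ext (H.perv.bi r v ?_ h2)
    rw [er]
    exact v.2
  -- the second family
  by_contra hcon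
  let A' : Submodule K V := {
    carrier := {y | y ∈ E ∧ R y ∈ (E ⊓ 𝒜).map R}
    add_mem' := fun {a c} ha hc => ⟨add_mem ha.1 hc.1, by rw [map_add]; exact add_mem ha.2 hc.2⟩
    zero_mem' := ⟨zero_mem _, by rw [map_zero]; exact zero_mem _⟩
    smul_mem' := fun c a ha => ⟨E.smul_mem _ ha.1, by rw [map_smul]; exact Submodule.smul_mem _ _ ha.2⟩ }
  have hA' : ∀ {y : V}, y ∈ A' ↔ y ∈ E ∧ R y ∈ (E ⊓ 𝒜).map R := Iff.rfl
  have hy₀A : y₀ ∉ A' := by
    intro h
    apply hcon
    have h3 := (hA'.1 h).2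
    rw [hy₀, map_smul] at h3
    exact (Submodule.smul_mem_iff _ (div_ne_zero hκ hC0)).1 h3
  let φ₂ : K → (A' × K) →ₗ[K] V := fun s =>
    (H.perv.Φ s ^ r) ∘ₗ (A'.subtype ∘ₗ LinearMap.fst K A' K) +
      -((LinearMap.toSpanSingleton K V w) ∘ₗ LinearMap.snd K A' K)
  have hφ₂ : φ₂ ∈ polyFam K (A' × K) V :=
    add_mem' (comp_mem (pow_mem' H.perv.Φ_mem r) (const_mem _)) (const_mem _)
  have hφ₂' : ∀ (s : K) (p : A' × K), φ₂ s p = (H.perv.Φ s ^ r) (p.1 : V) - p.2 • w := by
    intro s p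
    simp [φ₂, sub_eq_add_neg]
  have h2 : Function.Injective (φ₂ 0) := by
    rw [injective_iff_map_eq_zero]
    rintro ⟨v, c⟩ hx
    rw [hφ₂'] at hx
    simp only at hx
    have h3 : φ₁ 0 (⟨(v : V), (hA'.1 v.2).1⟩ - c • ⟨y₀, hy₀E⟩) = 0 := by
      change (H.perv.Φ 0 ^ r) ((v : V) - c • y₀) = 0
      rw [map_sub, map_smul, hy₀w, hx]
    have h4 := congrArg Subtype.val ((injective_iff_map_eq_zero _).1 h1 _ h3)
    have h5 : (v : V) - c • y₀ = 0 := h4
    rw [sub_eq_zero] at h5
    have hc : c = 0 := by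
      by_contra hc
      apply hy₀A
      have h6 := v.2
      rw [h5] at h6
      exact (Submodule.smul_mem_iff _ hc).1 h6
    rw [hc, zero_smul] at h5
    exact Prod.ext (Subtype.ext h5) hc
  have hfin1 := finite_not_injective hφ₁ h1
  have hfin2 := finite_not_injective hφ₂ h2
  have hinf : (Set.range (fun s : ℕ => (s : K))).Infinite :=
    Set.infinite_range_of_injective Nat.cast_injective
  obtain ⟨_, ⟨s, rfl⟩, hs⟩ := hinf.exists_notMem_finite
    ((hfin1.union hfin2).union (Set.finite_singleton (0 : K)))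
  simp only [Set.mem_union, Set.mem_ofPred_eq, not_or, not_not, Set.mem_singleton_iff] at hs
  obtain ⟨⟨hs1, hs2⟩, hs0⟩ := hs
  have key : ∀ v : V, H.perv.D (s : K) ((H.perv.Φ (s : K) ^ r) (H.perv.D (s : K)⁻¹ v)) =
      ((A + (s : K) ^ 2 • B) ^ r) v := by
    intro v
    have h3 := LinearMap.congr_fun (H.perv.D_Φ_pow hs0 r) (H.perv.D (s : K)⁻¹ v)
    rw [Module.End.mul_apply, Module.End.mul_apply] at h3
    rw [h3]
    have h4 := LinearMap.congr_fun (H.perv.D_D hs0) v
    rw [Module.End.mul_apply, Module.End.one_apply] at h4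
    rw [h4]
  have hDinj : ∀ {x y : V}, H.perv.D (s : K) x = H.perv.D (s : K) y → x = y := by
    intro x y hxy
    have h4 := LinearMap.congr_fun (H.perv.D_D' hs0) x
    have h5 := LinearMap.congr_fun (H.perv.D_D' hs0) y
    rw [Module.End.mul_apply, Module.End.one_apply] at h4 h5
    rw [← h4, ← h5, hxy]
  have hD0 : ∀ {v : V}, H.perv.D (s : K)⁻¹ v = 0 → v = 0 := by
    intro v hv
    have h4 := LinearMap.congr_fun (H.perv.D_D hs0) v
    rw [Module.End.mul_apply, Module.End.one_apply, hv, map_zero] at h4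
    exact h4.symm
  obtain ⟨v, ⟨hvE, hv𝒜⟩, hv⟩ := h𝒜 s (fun v hv h0 => by
    have h3 := key v
    rw [h0] at h3
    have h4 : (H.perv.Φ (s : K) ^ r) (H.perv.D (s : K)⁻¹ v) = 0 := hDinj (by rw [h3, map_zero])
    have h5 : φ₁ (s : K) ⟨H.perv.D (s : K)⁻¹ v, H.perv.D_mem _ hv⟩ = 0 := h4
    have h6 := (injective_iff_map_eq_zero _).1 hs1 _ h5
    exact hD0 (congrArg Subtype.val h6))
  -- the solution for the parameter `s`
  set y : V := (s : K) ^ (k : ℤ) • H.perv.D (s : K)⁻¹ v with hy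
  have hyE : y ∈ E := E.smul_mem _ (H.perv.D_mem _ hvE)
  have hyw : (H.perv.Φ (s : K) ^ r) y = w := by
    apply hDinj
    rw [hy, map_smul, map_smul, key, H.perv.D_apply _ hwmem]
    have h3 : ((A + (s : K) ^ 2 • B) ^ r) v = w := hv
    rw [h3]
  have hyA : y ∈ A' := by
    refine hA'.2 ⟨hyE, ?_⟩
    rw [hy, map_smul]
    refine Submodule.smul_mem _ _ ?_
    rw [H.R_diag hvE]
    exact Submodule.smul_mem _ _ ⟨v, ⟨hvE, hv𝒜⟩, rfl⟩
  have h7 := (injective_iff_map_eq_zero _).1 hs2 (⟨y, hyA⟩, (1 : K)) (by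
    rw [hφ₂', hyw, one_smul, sub_self])
  exact one_ne_zero (congrArg Prod.snd h7)

end PervFibre

end Pool.Agent.BBD
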