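import Mathlib
import Pool.Agent.Spread.Lin
import Pool.Agent.BBD.Uniform

/-!
# Algebraic classes on a fibre which are restrictions of cohomology classes
-/

open CategoryTheory MonoidalCategory CartesianMonoidalCategory

namespace Pool.Agent.WeilUniform

set_option linter.unusedSectionVars false

universe t v u w x y

variable {𝒱 : Type u} [Category.{v} 𝒱] [CartesianMonoidalCategory 𝒱]

namespace WeilCohomology

variable {T : IntersectionTheory.{v, u, w} 𝒱} {K : Type x} [Field K]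
  (W : WeilCohomology.{v, u, w, x, y} T K) {X Y F V : 𝒱}

/-- The linear combinations of the classes of cycles of codimension `i`. -/
def algSpan (X : 𝒱) (i : ℤ) : Submodule K (W.H X) :=
  Submodule.span K (W.cl X '' (T.gr X i : Set (T.CH X)))

variable {W} in
lemma algSpan_induction {X : 𝒱} {i : ℤ} {P : W.H X → Prop} (h0 : P 0)
    (hz : ∀ z ∈ T.gr X i, P (W.cl X z)) (hadd : ∀ a a', P a → P a' → P (a + a'))
    (hsmul : ∀ (c : K) a, P a → P (c • a)) {a : W.H X} (ha : a ∈ W.algSpan X i) : P a := by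
  induction ha using Submodule.span_induction with
  | mem x hx => obtain ⟨z, hz', rfl⟩ := hx; exact hz z hz'
  | zero => exact h0
  | add x y _ _ hx hy => exact hadd x y hx hy
  | smul c x _ hx => exact hsmul c x hx

lemma cl_mem_algSpan {X : 𝒱} {i : ℤ} {z : T.CH X} (hz : z ∈ T.gr X i) :
    W.cl X z ∈ W.algSpan X i := Submodule.subset_span ⟨z, hz, rfl⟩

lemma algSpan_le (X : 𝒱) (i : ℤ) : W.algSpan X i ≤ W.gr X (2 * i) := by
  rw [algSpan, Submodule.span_le]
  rintro _ ⟨z, hz, rfl⟩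
  exact W.cl_mem hz

lemma algSpan_mul {i j k : ℤ} (hk : k = i + j) {a : W.H X} (ha : a ∈ W.algSpan X i) {z : T.CH X}
    (hz : z ∈ T.gr X j) : a * W.cl X z ∈ W.algSpan X k := by
  subst hk
  refine algSpan_induction (P := fun a => a * W.cl X z ∈ W.algSpan X (i + j)) ?_
    (fun z' hz' => ?_) (fun a a' ha ha' => ?_) (fun c a ha => ?_) ha
  · simp only [zero_mul]; exact zero_mem _
  · rw [← map_mul]; exact W.cl_mem_algSpan (SetLike.mul_mem_graded hz' hz)
  · rw [add_mul]; exact add_mem ha ha'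
  · rw [smul_mul_assoc]; exact Submodule.smul_mem _ _ ha

lemma algSpan_mul_pow {i k : ℤ} (r : ℕ) (hk : k = i + r) {a : W.H X} (ha : a ∈ W.algSpan X i)
    {h : T.CH X} (hh : h ∈ T.gr X 1) : a * W.cl X h ^ r ∈ W.algSpan X k := by
  rw [← map_pow]
  have h1 := SetLike.pow_mem_graded r hh
  refine W.algSpan_mul (j := r • (1 : ℤ)) ?_ ha h1
  rw [nsmul_eq_mul, mul_one, hk]

lemma algSpan_corr {i r k : ℤ} (hk : k = i + r - T.dim Y) {z : T.CH (X ⊗ Y)}
    (hz : z ∈ T.gr (X ⊗ Y) r) {a : W.H Y} (ha : a ∈ W.algSpan Y i) :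
    W.corr z a ∈ W.algSpan X k := by
  subst hk
  refine algSpan_induction (P := fun a => W.corr z a ∈ W.algSpan X (i + r - T.dim Y)) ?_
    (fun z' hz' => ?_) (fun a a' ha ha' => ?_) (fun c a ha => ?_) ha
  · simp only [map_zero]; exact zero_mem _
  · rw [corr_apply, ← W.cl_pull, ← map_mul, ← W.cl_push]
    refine W.cl_mem_algSpan ?_
    have h1 := T.push_mem (fst X Y) (SetLike.mul_mem_graded hz (T.pull_mem (snd X Y) hz'))
    convert h1 using 2
    rw [T.dim_prod]
    push_cast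
    ring
  · rw [map_add]; exact add_mem ha ha'
  · rw [map_smul]; exact Submodule.smul_mem _ _ ha

lemma algSpan_push {i k : ℤ} (f : X ⟶ Y) (hk : k = i + T.dim Y - T.dim X) {a : W.H X}
    (ha : a ∈ W.algSpan X i) : W.push f a ∈ W.algSpan Y k := by
  subst hk
  refine algSpan_induction (P := fun a => W.push f a ∈ W.algSpan Y (i + T.dim Y - T.dim X)) ?_
    (fun z' hz' => ?_) (fun a a' ha ha' => ?_) (fun c a ha => ?_) ha
  · simp only [map_zero]; exact zero_mem _
  · rw [← W.cl_push]; exact W.cl_mem_algSpan (T.push_mem f hz')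
  · rw [map_add]; exact add_mem ha ha'
  · rw [map_smul]; exact Submodule.smul_mem _ _ ha

lemma algSpan_pull {i : ℤ} (f : X ⟶ Y) {a : W.H Y} (ha : a ∈ W.algSpan Y i) :
    W.pull f a ∈ W.algSpan X i := by
  refine algSpan_induction (P := fun a => W.pull f a ∈ W.algSpan X i) ?_
    (fun z' hz' => ?_) (fun a a' ha ha' => ?_) (fun c a ha => ?_) ha
  · simp only [map_zero]; exact zero_mem _
  · rw [← W.cl_pull]; exact W.cl_mem_algSpan (T.pull_mem f hz')
  · rw [map_add]; exact add_mem ha ha'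
  · rw [map_smul]; exact Submodule.smul_mem _ _ ha

lemma cl_pow_comm (z : T.CH X) (n : ℕ) (α : W.H X) :
    W.cl X z ^ n * α = α * W.cl X z ^ n := by
  rw [← map_pow, W.cl_comm]

lemma mul_pow_mem {h : T.CH X} (hh : h ∈ T.gr X 1) (r : ℕ) {j k : ℤ} (hk : k = j + 2 * r)
    {α : W.H X} (hα : α ∈ W.gr X j) : α * W.cl X h ^ r ∈ W.gr X k := by
  have h1 := SetLike.pow_mem_graded r (W.cl_mem hh)
  have h2 := SetLike.mul_mem_graded hα h1
  rw [nsmul_eq_mul, show j + (r : ℤ) * (2 * 1) = k by rw [hk]; ring] at h2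
  exact h2

/-- An operator which commutes with the Lefschetz operator commutes with its inverse. -/
lemma comm_of_lefschetz {h : T.CH Y} {i : ℕ} (hi : i ≤ T.dim Y) {lam z₀ : T.CH (Y ⊗ Y)}
    (hlam : lam ∈ T.gr (Y ⊗ Y) i) (hinv : W.IsLefschetzInverse h i lam)
    (hz₀ : ∀ β, W.corr z₀ β = W.corr lam (W.proj Y (2 * T.dim Y - i) β))
    (g : W.H Y →ₗ[K] W.H Y) (hdeg : ∀ (j : ℤ) (α : W.H Y), α ∈ W.gr Y j → g α ∈ W.gr Y j)
    (h1 : ∀ α, g (W.lefschetz h 1 α) = W.lefschetz h 1 (g α)) (β : W.H Y) :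
    W.corr z₀ (g β) = g (W.corr z₀ β) := by
  have hpow : ∀ (r : ℕ) (α), g (W.lefschetz h r α) = W.lefschetz h r (g α) := by
    intro r
    induction r with
    | zero => intro α; simp only [lefschetz_apply, pow_zero, mul_one]
    | succ r ih =>
      intro α
      have h2 : ∀ α, W.lefschetz h (r + 1) α = W.lefschetz h 1 (W.lefschetz h r α) := by
        intro α
        rw [lefschetz_apply, lefschetz_apply, lefschetz_apply, pow_one, pow_succ, mul_assoc]
      rw [h2, h2, h1, ih]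
  have hproj : ∀ (j : ℤ) (α), W.proj Y j (g α) = g (W.proj Y j α) := by
    intro j α
    refine W.hom_ind (P := fun α => W.proj Y j (g α) = g (W.proj Y j α)) (by simp) ?_ ?_ α
    · intro m a ha
      by_cases hm : m = j
      · subst hm; rw [W.proj_same ha, W.proj_same (hdeg _ _ ha)]
      · rw [W.proj_ne ha hm, W.proj_ne (hdeg _ _ ha) hm, map_zero]
    · intro a a' ha ha'
      rw [map_add, map_add, map_add, map_add, ha, ha']
  have hlamg : ∀ γ ∈ W.gr Y (2 * T.dim Y - i), W.corr lam (g γ) = g (W.corr lam γ) := by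
    intro γ hγ
    have h3 : W.lefschetz h (T.dim Y - i) (W.corr lam γ) = γ := hinv.2 γ hγ
    have h4 : W.corr lam γ ∈ W.gr Y i := W.corr_mem hlam hγ (by ring)
    have h5 := hinv.1 (g (W.corr lam γ)) (hdeg _ _ h4)
    rw [← hpow, h3] at h5
    exact h5
  rw [hz₀, hproj, hlamg _ (W.proj_mem _ _ _), hz₀]

/-- The class of `cmp lam p` where `p` is a projector. -/
lemma corr_part_cmp {i : ℕ} {lam p : T.CH (Y ⊗ Y)} (hlam : lam ∈ T.gr (Y ⊗ Y) i)
    (hp : W.corr p = W.proj Y (2 * T.dim Y - i)) (β : W.H Y) :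
    W.corr (part (Y ⊗ Y) i (T.cmp lam p)) β = W.corr lam (W.proj Y (2 * T.dim Y - i) β) := by
  refine W.hom_ind (P := fun β => W.corr (part (Y ⊗ Y) i (T.cmp lam p)) β =
    W.corr lam (W.proj Y (2 * T.dim Y - i) β)) (by simp) ?_ ?_ β
  · intro m c hc
    rw [W.corr_part (r := i) (j := m) (k := m + 2 * (i - T.dim Y)) _ rfl hc, W.corr_cmp,
      LinearMap.comp_apply, hp]
    by_cases hm : m = 2 * T.dim Y - i
    · subst hm
      rw [W.proj_same hc]
      exact W.proj_same (W.corr_mem hlam hc rfl)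
    · rw [W.proj_ne hc hm, map_zero, map_zero]
  · intro a a' ha ha'
    rw [map_add, map_add, map_add, ha, ha']

/-- **Algebraic classes on a fibre.** If `V` and `F` have inverse Lefschetz operators induced by cycles,
then every combination of algebraic classes on the fibre `F` which is the restriction of a cohomology
class on `V` is the restriction of a combination of algebraic classes. -/
theorem exists_lift [CharZero K] (e : F ⟶ V) {b : ℕ} (hdim : T.dim V = T.dim F + b)
    {a η : T.CH V} (ha : a ∈ T.gr V 1) (hη : η ∈ T.gr V 1) {G : ℤ → ℤ → Submodule K (W.H V)} {κ : K}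
    (H : BBD.PervFibre G (T.dim F) b (LinearMap.mulRight K (W.cl V a))
      (LinearMap.mulRight K (W.cl V η)) (LinearMap.mulRight K (W.cl F (T.pull e η)))
      (W.pull e).toLinearMap (W.push e) κ) (hκ : κ ≠ 0)
    (hG : ∀ m, W.gr V m ≤ ⨆ j : ℤ, G j m) (hG' : ∀ j m, G j m ≤ W.gr V m)
    (invV : ∀ m : ℕ, m ≤ T.dim V → ∀ c ∈ T.gr V 1,
      (∀ α ∈ W.gr V m, W.lefschetz c (T.dim V - m) α = 0 → α = 0) →
        ∃ z ∈ T.gr (V ⊗ V) m, W.IsLefschetzInverse c m z)
    (invF : ∀ m : ℕ, m ≤ T.dim F → ∃ z ∈ T.gr (F ⊗ F) m,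
      W.IsLefschetzInverse (T.pull e η) m z) (i : ℕ) (hi : 2 * i ≤ T.dim F)
    (x : W.H F) (hx : x ∈ W.algSpan F i) (y : W.H V) (hy : y ∈ W.gr V (2 * i))
    (hxy : W.pull e y = x) :
    ∃ y' ∈ W.algSpan V i, W.pull e y' = x := by
  have hGeq : ∀ m, (⨆ j : ℤ, G j m) ≤ W.gr V m := fun m => iSup_le fun j => hG' j m
  have hθ : T.pull e η ∈ T.gr F 1 := T.pull_mem e hη
  set θ : Module.End K (W.H F) := LinearMap.mulRight K (W.cl F (T.pull e η)) with hθdef
  have hθpow : ∀ (k : ℕ) (α : W.H F), (θ ^ k) α = α * W.cl F (T.pull e η) ^ k :=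
    fun k α => W.pow_mulRight F _ k α
  have hpullB : ∀ (k : ℕ) (α : W.H V), W.pull e (α * W.cl V η ^ k) = (θ ^ k) (W.pull e α) := by
    intro k α
    rw [hθpow, map_mul, map_pow, W.cl_pull]
  -- the primitive case
  have step : ∀ i : ℕ, 2 * i ≤ T.dim F → ∀ x ∈ W.algSpan F i, ∀ y ∈ W.gr V (2 * i),
      W.pull e y = x → ∀ y₁ ∈ W.algSpan V ((i : ℤ) - 1),
        (θ ^ (T.dim F - 2 * i + 2)) (W.pull e y₁) = (θ ^ (T.dim F - 2 * i + 1)) x →
          ∃ y' ∈ W.algSpan V i, W.pull e y' = x := by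
    intro i hi x hx y hy hxy y₁ hy₁ h1
    obtain ⟨k, hk⟩ : ∃ k : ℕ, k = T.dim F - 2 * i := ⟨_, rfl⟩
    rw [← hk] at h1
    have hki : 2 * (i : ℤ) = (T.dim F : ℤ) - k := by omega
    have hy₁η : y₁ * W.cl V η ∈ W.algSpan V i := W.algSpan_mul (by ring) hy₁ hη
    have hpη : W.pull e (y₁ * W.cl V η) = θ (W.pull e y₁) := by
      have := hpullB 1 y₁
      rwa [pow_one, pow_one] at this
    set x₀ : W.H F := x - θ (W.pull e y₁) with hx₀
    have hx₀y : W.pull e (y - y₁ * W.cl V η) = x₀ := by rw [map_sub, hxy, hpη]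
    have hx₀A : x₀ ∈ W.algSpan F i := by
      rw [hx₀, ← hpη]
      exact sub_mem hx (W.algSpan_pull e hy₁η)
    have hprim : (θ ^ (k + 1)) x₀ = 0 := by
      rw [hx₀, map_sub, sub_eq_zero, ← h1]
      have e1 : θ ^ (k + 2) = θ ^ (k + 1) * θ := by rw [← pow_succ]
      rw [e1]
      rfl
    have hy₂ : y - y₁ * W.cl V η ∈ ⨆ j : ℤ, G j (2 * i) :=
      hG _ (sub_mem hy (W.algSpan_le _ _ hy₁η))
    obtain ⟨x', hx', hx'x⟩ := H.exists_top hy₂
    have hx'x₀ : W.pull e x' = x₀ := hx'x.trans hx₀y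
    rw [show 2 * (i : ℤ) - T.dim F = -k by rw [hki]; ring, hki] at hx'
    have key := H.limit hκ k hx' (by
      change (θ ^ (k + 1)) (W.pull e x') = 0
      rw [hx'x₀, hprim]) (W.algSpan V i) (by
      intro s hs
      -- the class `a + s² η`
      set c : T.CH V := a + ((s : ℚ) ^ 2) • η with hc
      have hc1 : c ∈ T.gr V 1 := add_mem ha (Submodule.smul_mem _ _ hη)
      have hcl : W.cl V c = W.cl V a + (s : K) ^ 2 • W.cl V η := by
        rw [hc, map_add, W.cl_smul]
        push_cast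
        rfl
      have hop : (LinearMap.mulRight K (W.cl V a) + (s : K) ^ 2 •
          LinearMap.mulRight K (W.cl V η) : Module.End K (W.H V)) =
            LinearMap.mulRight K (W.cl V c) := by
        apply LinearMap.ext
        intro α
        rw [LinearMap.add_apply, LinearMap.smul_apply, LinearMap.mulRight_apply,
          LinearMap.mulRight_apply, LinearMap.mulRight_apply, hcl, mul_add, mul_smul_comm]
      rw [hop] at hs ⊢
      have hr : T.dim V - 2 * i = b + k := by omega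
      have hm : 2 * i ≤ T.dim V := by omega
      obtain ⟨z, hz, hinv⟩ := invV (2 * i) hm c hc1 (fun α hα h0 => by
        refine hs α ?_ ?_
        · have := hG _ hα
          rwa [show ((2 * i : ℕ) : ℤ) = (T.dim F : ℤ) - k by push_cast; exact hki] at this
        · rw [W.pow_mulRight, ← hr]
          exact h0)
      have hw : W.push e ((θ ^ k) (W.pull e x')) ∈ W.algSpan V (i + k + b) := by
        rw [hx'x₀, hθpow]
        refine W.algSpan_push (i := i + k) e ?_ (W.algSpan_mul_pow k rfl hx₀A hθ)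
        rw [hdim]; push_cast; ring
      have hv : W.corr z (W.push e ((θ ^ k) (W.pull e x'))) ∈ W.algSpan V i :=
        W.algSpan_corr (by rw [hdim]; push_cast; linarith) hz hw
      refine ⟨_, ⟨?_, hv⟩, ?_⟩
      · have := hG _ (W.algSpan_le _ _ hv)
        rwa [hki] at this
      · rw [W.pow_mulRight]
        have h2 := hinv.2 (W.push e ((θ ^ k) (W.pull e x'))) (by
          have h3 := W.algSpan_le _ _ hw
          have e3 : 2 * ((i : ℤ) + k + b) = 2 * T.dim V - (2 * i : ℕ) := by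
            rw [hdim]; push_cast; linarith
          rwa [e3] at h3)
        rw [hr] at h2
        exact h2)
    obtain ⟨y₀, ⟨-, hy₀A⟩, hy₀⟩ := key
    refine ⟨y₀ + y₁ * W.cl V η, add_mem hy₀A hy₁η, ?_⟩
    have h2 : W.pull e y₀ = x₀ := hy₀.trans hx'x₀
    rw [map_add, h2, hpη, hx₀, sub_add_cancel]
  induction i generalizing x y with
  | zero =>
    refine step 0 hi x hx y hy hxy 0 (zero_mem _) ?_
    rw [map_zero, map_zero, hθpow]
    have h1 := W.algSpan_le _ _ hx
    have h2 := W.mul_pow_mem hθ (T.dim F - 2 * 0 + 1) rfl h1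
    rw [W.gr_eq_bot F _ (by right; push_cast; omega), Submodule.mem_bot] at h2
    exact h2.symm
  | succ i ih =>
    obtain ⟨k, hk⟩ : ∃ k : ℕ, k = T.dim F - 2 * (i + 1) := ⟨_, rfl⟩
    -- the class `x₁`
    have hv : y * W.cl V η ^ (k + 1) ∈ ⨆ j : ℤ, G j (T.dim F + ((k + 2 : ℕ) : ℤ)) := by
      refine hG _ (W.mul_pow_mem hη (k + 1) ?_ hy)
      push_cast; omega
    obtain ⟨u, hu, h1⟩ := H.exists_lower (k + 2) hv
    have h2 : (θ ^ (k + 2)) (W.pull e u) = (θ ^ (k + 1)) x := by
      rw [← hxy, ← hpullB (k + 1)]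
      exact h1
    have hu2 : u ∈ W.gr V (2 * i) := by
      have := hG' _ _ hu
      rwa [show (T.dim F : ℤ) - ((k + 2 : ℕ) : ℤ) = 2 * i by push_cast; omega] at this
    obtain ⟨z, hz, hinv⟩ := invF (2 * i) (by omega)
    have h3 : W.corr z ((θ ^ (k + 1)) x) = W.pull e u := by
      rw [← h2, hθpow]
      have h4 := hinv.1 (W.pull e u) (by
        have := W.pull_mem e hu2
        push_cast
        exact this)
      rw [show T.dim F - 2 * i = k + 2 by omega] at h4
      exact h4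
    have h5 : W.pull e u ∈ W.algSpan F i := by
      rw [← h3, hθpow]
      refine W.algSpan_corr (i := (i + 1 : ℤ) + (k + 1)) ?_ hz
        (W.algSpan_mul_pow (k + 1) (by push_cast; ring) (i := (i + 1 : ℤ)) ?_ hθ)
      · push_cast; omega
      · have := hx
        push_cast at this
        exact this
    obtain ⟨y₁, hy₁, h6⟩ := ih (by omega) (W.pull e u) h5 u hu2 rfl
    refine step (i + 1) hi x hx y hy hxy y₁ ?_ ?_
    · have : ((i + 1 : ℕ) : ℤ) - 1 = i := by push_cast; ring
      rw [this]; exact hy₁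
    · rw [h6, ← hk]; exact h2

end WeilCohomology

end Pool.Agent.WeilUniform
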