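import Mathlib
import Pool.Agent.BBD.ClassDefs

/-!
# Families of varieties

Let `k` be a subfield of `k'`, both algebraically closed. The varieties over `k` form the category `𝒱`,
the varieties over `k'` form the category `𝒱'`. We describe what is needed to compare the geometric
generic fibre `X` of a family over a variety over `k`, whose function field is contained in `k'`, with
a special fibre `Y`.
-/

open CategoryTheory MonoidalCategory CartesianMonoidalCategory

namespace Pool.Agent.Weil

universe v u w x y

variable {𝒱 : Type u} [Category.{v} 𝒱] [CartesianMonoidalCategory 𝒱]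
  {𝒱' : Type u} [Category.{v} 𝒱'] [CartesianMonoidalCategory 𝒱']
  {T : IntersectionTheory.{v, u, w} 𝒱} {T' : IntersectionTheory.{v, u, w} 𝒱'}
  {K : Type x} [Field K]

/-- The Lefschetz standard conjecture for `Y` and the theory `W`: the hard Lefschetz theorem holds for
some class of codimension one and for every `j ≤ dim Y` some cycle class of codimension `j` induces
an injection `H^{2 dim Y - j}(Y) ⟶ H^j(Y)`. -/
structure WeilCohomology.StandardB (W : WeilCohomology.{v, u, w, x, y} T K) (Y : 𝒱) : Prop where
  hard : W.HasHardLefschetz Y
  cycle : ∀ j ≤ T.dim Y, W.HasInjectiveCycle Y j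

/-- The operator on the cohomology of `Y` attached to a cohomology class `c` on `Y × Y`:
`β ↦ pr₁_*(c ∪ pr₂^* β)`. -/
def WeilCohomology.operator (W : WeilCohomology.{v, u, w, x, y} T K) {Y : 𝒱} (c : W.obj (Y ⊗ Y))
    (β : W.obj Y) : W.obj Y :=
  W.lower (fst Y Y) (W.cup c (W.upper (snd Y Y) β))

/-- The morphism `e : F ⟶ V` has the formal properties of the inclusion of a general fibre of a family
with total space `V` over a projective variety of dimension `b`.

Example: let `p : V ⟶ S` be a surjective morphism of projective varieties over an algebraically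
closed field, where `V` is smooth of dimension `N` and `S` has dimension `b`, and let `F` be
the fibre over a point of an open subset of `S` over which `p` is smooth. Let `a` be the
pullback of an ample class on `S`, let `η` be an ample class on `V`, and choose an
isomorphism `Rp_*ℚ_ℓ[N] ≅ ⨁_j ᵖℋ^j[-j]` (decomposition theorem). Then the subspaces
`G j m = H^{m-N-j}(S, ᵖℋ^j)` of `H^m(V, ℚ_ℓ)` have all these properties. -/
structure WeilCohomology.IsFibre (W : WeilCohomology.{v, u, w, x, y} T K) {F V : 𝒱} (e : F ⟶ V)
    (b : ℕ) (a η : T.obj V) (G : ℤ → ℤ → Submodule K (W.obj V)) : Prop where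
  dim : T.dim V = T.dim F + b
  degree_base : T.InDegree 1 a
  degree_fibre : T.InDegree 1 η
  /-- the hard Lefschetz theorem for the restriction of `η` to the fibre -/
  hard : ∀ j ≤ T.dim F, W.HardLefschetz (T.upper e η) j
  base_pow : W.cl a ^ (b + 1) = 0
  /-- the class of the fibre is proportional to `a ^ b` -/
  fibre_class : ∃ c : K, c ≠ 0 ∧ W.lower e 1 = c • W.cl a ^ b
  bigrading : W.IsBigrading G
  base : W.BaseLefschetz a G
  relative : W.FibreLefschetz η G
  range : ∀ (j m : ℤ) (α : W.obj V), W.InPart G j m α → m - T.dim F < j → α = 0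
  /-- the restriction to the fibre vanishes on the part of perverse degree `< m - dim F` -/
  restrict : ∀ (j m : ℤ) (α : W.obj V), W.InPart G j m α → j < m - T.dim F → W.upper e α = 0
  /-- the restriction is injective on the part of perverse degree `m - dim F` -/
  injective : ∀ (m : ℤ) (α : W.obj V), W.InPart G (m - T.dim F) m α → W.upper e α = 0 → α = 0

/-- The set `M` of operators on the cohomology of `Y` has the formal properties of the monodromy group
of a family with special fibre `Y` such that `e : Y × Y ⟶ V` is the inclusion of a fibre in a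
smooth compactification of the fibre square of the family. The property `invariant` is the theorem
on global invariant cycles (Deligne): the classes on `Y × Y` whose operators commute with
the monodromy are restrictions of classes on `V`. -/
structure WeilCohomology.IsMonodromy (W : WeilCohomology.{v, u, w, x, y} T K) {Y V : 𝒱}
    (e : Y ⊗ Y ⟶ V) (h : T.obj Y) (M : Set (W.obj Y → W.obj Y)) : Prop where
  degree_class : T.InDegree 1 h
  hard : ∀ j ≤ T.dim Y, W.HardLefschetz h j
  linear : ∀ g ∈ M, ∀ (c : K) (α β : W.obj Y), g (W.comb c α β) = W.comb c (g α) (g β)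
  degree : ∀ g ∈ M, ∀ (j : ℤ) (α : W.obj Y), W.InDegree j α → W.InDegree j (g α)
  /-- the class `h` is the restriction of a class on the total space of the family -/
  lefschetz : ∀ g ∈ M, ∀ α : W.obj Y, g (W.lefschetz h 1 α) = W.lefschetz h 1 (g α)
  invariant : ∀ (i : ℤ) (c : W.obj (Y ⊗ Y)), W.InDegree (2 * i) c →
    (∀ g ∈ M, ∀ β : W.obj Y, W.operator c (g β) = g (W.operator c β)) →
      ∃ α : W.obj V, W.InDegree (2 * i) α ∧ W.upper e α = c

/-- The map `ρ` has the formal properties of the restriction of cycles on `V` (over `k`) to the
geometric generic fibre `X × X` (over `k'`), and `φ` has those of the specialization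
isomorphism from the cohomology of the geometric generic fibre `X` to the cohomology of the special
fibre `Y`: the restriction `ρ v` of `v` to the generic fibre and the restriction `e^* v` of
`v` to the special fibre `Y × Y` induce the same operator. -/
structure IsSpecialization (W : WeilCohomology.{v, u, w, x, y} T K)
    (W' : WeilCohomology.{v, u, w, x, y} T' K) {X : 𝒱'} {Y V : 𝒱} (e : Y ⊗ Y ⟶ V)
    (ρ : T.obj V → T'.obj (X ⊗ X)) (φ : W'.obj X → W.obj Y) : Prop where
  dim : T'.dim X = T.dim Y
  degree_cycle : ∀ (i : ℤ) (v : T.obj V), T.InDegree i v → T'.InDegree i (ρ v)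
  linear : ∀ (c : K) (α β : W'.obj X), φ (W'.comb c α β) = W.comb c (φ α) (φ β)
  bijective : Function.Bijective φ
  degree : ∀ (j : ℤ) (α : W'.obj X), W'.InDegree j α → W.InDegree j (φ α)
  act : ∀ (v : T.obj V) (α : W'.obj X),
    φ (W'.act (ρ v) α) = W.operator (W.upper e (W.cl v)) (φ α)

/-- The variety `X` over `k'` is the geometric generic fibre of a family over a variety over `k` with
special fibre `Y`, and `V` is a smooth projective compactification of the fibre square of the
family. -/
def HasModel (W : WeilCohomology.{v, u, w, x, y} T K)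
    (W' : WeilCohomology.{v, u, w, x, y} T' K) (X : 𝒱') (Y V : 𝒱) : Prop :=
  ∃ e : Y ⊗ Y ⟶ V, (∃ b a η G, W.IsFibre e b a η G) ∧ (∃ h M, W.IsMonodromy e h M) ∧
    ∃ (ρ : T.obj V → T'.obj (X ⊗ X)) (φ : W'.obj X → W.obj Y), IsSpecialization W W' e ρ φ

end Pool.Agent.Weil
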