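import Mathlib
import Pool.Agent.Spread.Defs
import Pool.Agent.Spread.Core
import Pool.Agent.BBD.ClassFinal

/-!
# The Lefschetz standard conjecture for the generic fibre of a family
-/

open CategoryTheory MonoidalCategory CartesianMonoidalCategory

namespace Pool.Agent.Weil

open Pool.Agent.WeilUniform

set_option linter.unusedSectionVars false

universe t v u w x y

variable {𝒱 : Type u} [Category.{v} 𝒱] [CartesianMonoidalCategory 𝒱]
  {𝒱' : Type u} [Category.{v} 𝒱'] [CartesianMonoidalCategory 𝒱']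
  {T : IntersectionTheory.{v, u, w} 𝒱} {T' : IntersectionTheory.{v, u, w} 𝒱'}

section single

variable {K : Type x} [Field K] {W : WeilCohomology.{v, u, w, x, y} T K} {F V Y : 𝒱}

lemma WeilCohomology.StandardB.std [CharZero K] (H : W.StandardB Y) :
    Kun (fun _ : Unit => W.unbundle) Y ∧ W.unbundle.Std Y := by
  obtain ⟨h, hh, hard⟩ := H.hard
  refine kun_std_of_span (fun _ : Unit => W.unbundle) () h hh (fun j hj => hard j hj)
    (fun _ j _ => le_rfl) (fun j hj => ?_)
  obtain ⟨z, hz, hinj⟩ := H.cycle j hj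
  refine ⟨1, fun _ => z, fun _ => 1, fun _ => hz, fun β hβ h0 => ?_⟩
  rw [Fin.sum_univ_one, one_smul] at h0
  exact hinj β hβ h0

variable {e : F ⟶ V} {b : ℕ} {a η : T.obj V} {G : ℤ → ℤ → Submodule K (W.obj V)}

lemma WeilCohomology.IsFibre.perv (H : W.IsFibre e b a η G) :
    BBD.Perv (K := K) (V := W.unbundle.H V) (toU W G) ((T.dim F : ℤ) + b) (mulCl W a)
      (mulCl W η) := by
  have hd : (T.dim F : ℤ) + b = T.dim V := by rw [H.dim]; push_cast; rfl
  rw [hd]
  exact {
    internal := H.bigrading.internal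
    comm := mulCl_comm _ _
    A_mem := fun j m v hv => toU_mem (mulCl_apply _ v) (H.base.mem j m v hv)
    A_inj := fun j k v hv h0 => H.base.injective j k v hv
      ((mulCl_pow (W := W) a k v).symm.trans h0)
    A_surj := fun j k v hv => by
      obtain ⟨u, hu, huv⟩ := H.base.surjective j k v hv
      exact ⟨u, hu, (mulCl_pow (W := W) a k u).trans huv⟩
    B_mem := fun j m v hv => toU_upTo_mem (mulCl_apply _ v)
      ((inFiltration_iff _).1 (H.relative.mem j m v hv))
    B_inj := fun j m v hv h0 =>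
      H.relative.injective j m v hv ((inFiltration_iff _).2
        (toU_upTo_mem (mulCl_pow (W := W) η j v).symm h0))
    B_surj := fun j m v hv => by
      obtain ⟨u, hu, huv⟩ := H.relative.surjective j m v hv
      let b : W.unbundle.H V := W.lefschetz η j u
      have hb : ((mulCl W η) ^ j) u = b := mulCl_pow (W := W) η j u
      refine ⟨u, hu, toU_upTo_mem (b := (-1 : K) • v + b) ?_ ((inFiltration_iff _).1 huv)⟩
      rw [hb, neg_one_smul]
      abel }

lemma WeilCohomology.IsFibre.gr_le (H : W.IsFibre e b a η G) (m : ℤ) :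
    W.unbundle.gr V m ≤ ⨆ j : ℤ, toU W G j m := by
  have key : ∀ α : W.unbundle.H V, W.unbundle.proj V m α ∈ ⨆ j : ℤ, toU W G j m := by
    intro α
    have hv : α ∈ ⨆ p : ℤ × ℤ, toU W G p.1 p.2 := by
      rw [H.perv.internal.submodule_iSup_eq_top]; trivial
    induction hv using Submodule.iSup_induction' with
    | mem p x hx =>
      have h1 : x ∈ W.unbundle.gr V p.2 := H.bigrading.degree p.1 p.2 x hx
      by_cases hm : p.2 = m
      · subst hm
        rw [W.unbundle.proj_same h1]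
        exact Submodule.mem_iSup_of_mem p.1 hx
      · rw [W.unbundle.proj_ne h1 hm]
        exact zero_mem _
    | zero => rw [map_zero]; exact zero_mem _
    | add x y _ _ hx hy => rw [map_add]; exact add_mem hx hy
  intro α hα
  rw [← W.unbundle.proj_same hα]
  exact key α

lemma WeilCohomology.IsFibre.pervFibre (H : W.IsFibre e b a η G) : ∃ κ : K, κ ≠ 0 ∧
    BBD.PervFibre (K := K) (V := W.unbundle.H V) (U := W.unbundle.H F) (toU W G) (T.dim F) b
      (mulCl W a) (mulCl W η) (mulCl W (T.upper e η))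
      (W.unbundle.pull (X := F) (Y := V) e).toLinearMap
      (W.unbundle.push (X := F) (Y := V) e) κ := by
  obtain ⟨κ, hκ, hκ'⟩ := H.fibre_class
  have hclass : W.unbundle.push (X := F) (Y := V) e 1 = κ • W.unbundle.cl V a ^ b := hκ'
  refine ⟨κ, hκ, ?_⟩
  exact {
    perv := H.perv
    A_pow := by
      apply LinearMap.ext
      intro α
      have h1 := W.unbundle.pow_mulRight V (W.unbundle.cl V a) (b + 1) α
      have h2 : W.unbundle.cl V a ^ (b + 1) = 0 := H.base_pow
      rw [h2, mul_zero] at h1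
      exact h1
    RB := fun v => by
      have h1 := W.unbundle.cl_pull (X := F) (Y := V) e η
      change W.unbundle.pull (X := F) (Y := V) e (v * W.unbundle.cl V η) =
        W.unbundle.pull (X := F) (Y := V) e v *
          W.unbundle.cl F (T.unbundle.pull (X := F) (Y := V) e η)
      rw [h1, map_mul]
    PR := fun v => by
      have h1 := W.unbundle.push_mul_pull (X := F) (Y := V) e 1 v
      have h2 := W.unbundle.pow_mulRight V (W.unbundle.cl V a) b v
      change W.unbundle.push (X := F) (Y := V) e (W.unbundle.pull (X := F) (Y := V) e v) = _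
      rw [one_mul] at h1
      rw [h1, hclass, smul_mul_assoc]
      congr 1
      exact (W.unbundle.cl_pow_comm (X := V) a b v).trans h2.symm
    R_zero := fun j m hj v hv => H.restrict j m v hv hj
    R_inj := fun m v hv h0 => H.injective m v hv h0
    range := fun j m hj v hv => H.range j m v hv hj }

/-- The lifting of algebraic classes. -/
theorem WeilCohomology.IsFibre.exists_lift [CharZero K] (H : W.IsFibre e b a η G)
    (hKV : Kun (fun _ : Unit => W.unbundle) V) (hSV : W.unbundle.Std V)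
    (hKF : Kun (fun _ : Unit => W.unbundle) F) (hSF : W.unbundle.Std F) (i : ℕ)
    (hi : 2 * i ≤ T.dim F) (x : W.unbundle.H F) (hx : x ∈ W.unbundle.algSpan F i)
    (y : W.unbundle.H V) (hy : y ∈ W.unbundle.gr V (2 * i))
    (hxy : W.unbundle.pull (X := F) (Y := V) e y = x) :
    ∃ y' ∈ W.unbundle.algSpan V i, W.unbundle.pull (X := F) (Y := V) e y' = x := by
  obtain ⟨κ, hκ, HP⟩ := H.pervFibre
  refine W.unbundle.exists_lift (F := F) (V := V) e H.dim H.degree_base H.degree_fibre HP hκ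
    H.gr_le (fun j m α hα => H.bigrading.degree j m α hα) (fun m hm c hc hinj => ?_)
    (fun m hm => ?_) i hi x hx y hy hxy
  · obtain ⟨z, hz, hinv⟩ := uniform_of_std (fun _ : Unit => W.unbundle) hKV () hSV m hm c hc ()
      hinj
    exact ⟨z, hz, hinv ()⟩
  · obtain ⟨z, hz, hinv⟩ := uniform_of_std (fun _ : Unit => W.unbundle) hKF () hSF m hm
      (T.upper e η) (T.unbundle.pull_mem (X := F) (Y := V) e H.degree_fibre) ()
      (fun α hα h0 => H.hard m hm α hα h0)
    exact ⟨z, hz, hinv ()⟩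

/-- The operators of the monodromy commute with the inverse Lefschetz operator. -/
lemma WeilCohomology.IsMonodromy.comm {e : Y ⊗ Y ⟶ V} {h : T.obj Y} {M : Set (W.obj Y → W.obj Y)}
    (H : W.IsMonodromy e h M) {i : ℕ} (hi : i ≤ T.dim Y) {lam z₀ : T.unbundle.CH (Y ⊗ Y)}
    (hlam : lam ∈ T.unbundle.gr (Y ⊗ Y) i) (hinv : W.unbundle.IsLefschetzInverse (X := Y) h i lam)
    (hz₀ : ∀ β, W.unbundle.corr (X := Y) (Y := Y) z₀ β =
      W.unbundle.corr (X := Y) (Y := Y) lam (W.unbundle.proj Y (2 * T.dim Y - i) β))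
    (g : W.obj Y → W.obj Y) (hg : g ∈ M) (β : W.unbundle.H Y) :
    W.unbundle.corr (X := Y) (Y := Y) z₀ (g β) = g (W.unbundle.corr (X := Y) (Y := Y) z₀ β) := by
  let gl : W.unbundle.H Y →ₗ[K] W.unbundle.H Y := PullPush.linearOfComb g (H.linear g hg)
  exact W.unbundle.comm_of_lefschetz (Y := Y) hi hlam hinv hz₀ gl (fun j α hα => H.degree g hg j α hα)
    (fun α => H.lefschetz g hg α) β

variable {W' : WeilCohomology.{v, u, w, x, y} T' K} {X : 𝒱'}

/-- **The cycles on the generic fibre.** -/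
theorem HasModel.exists_comb [CharZero K] (H : HasModel W W' X Y V) (hY : W.StandardB Y)
    (hV : W.StandardB V) {i : ℕ} (hi : i ≤ T'.dim X) :
    ∃ (m : ℕ) (z : Fin m → T'.unbundle.CH (X ⊗ X)) (c : Fin m → K),
      (∀ r, z r ∈ T'.unbundle.gr (X ⊗ X) i) ∧ ∀ β ∈ W'.unbundle.gr X (2 * T'.dim X - i),
        ∑ r, c r • W'.unbundle.corr (X := X) (Y := X) (z r) β = 0 → β = 0 := by
  obtain ⟨e, ⟨b, a, η, G, HF⟩, ⟨h, M, HM⟩, ρ, φ, HS⟩ := H
  obtain ⟨hKY, hSY⟩ := hY.std
  obtain ⟨hKV, hSV⟩ := hV.std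
  have hKF : Kun (fun _ : Unit => W.unbundle) (Y ⊗ Y) := hKY.prod _ hKY
  have hSF : W.unbundle.Std (Y ⊗ Y) :=
    WeilUniform.WeilCohomology.Std.prod W.unbundle (fun j => (hKY j).imp fun p hp => hp ())
      (fun j => (hKY j).imp fun p hp => hp ()) hSY hSY
  have hdim : T'.dim X = T.dim Y := HS.dim
  have hiY : i ≤ T.dim Y := hdim ▸ hi
  -- the cycle on `Y × Y`
  obtain ⟨lam, hlam, hinv'⟩ := uniform_of_std (fun _ : Unit => W.unbundle) hKY () hSY i hiY h
    HM.degree_class () (fun α hα h0 => HM.hard i hiY α hα h0)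
  have hinv := hinv' ()
  obtain ⟨p, hp'⟩ := hKY (2 * T.dim Y - i)
  have hp : W.unbundle.corr (X := Y) (Y := Y) p = W.unbundle.proj Y (2 * T.dim Y - i) := hp' ()
  set z₀ : T.unbundle.CH (Y ⊗ Y) :=
    WeilUniform.WeilCohomology.part (Y ⊗ Y) i (T.unbundle.cmp lam p) with hz₀def
  have hz₀g : z₀ ∈ T.unbundle.gr (Y ⊗ Y) i := WeilUniform.WeilCohomology.part_mem _ _ _
  have hz₀ : ∀ β, W.unbundle.corr (X := Y) (Y := Y) z₀ β =
      W.unbundle.corr (X := Y) (Y := Y) lam (W.unbundle.proj Y (2 * T.dim Y - i) β) := by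
    exact fun β => W.unbundle.corr_part_cmp (Y := Y) hlam hp β
  -- it is the restriction of a cohomology class on `V`
  obtain ⟨α, hα, hαe⟩ := HM.invariant i (W.cl z₀) (W.cl_degree (Y ⊗ Y) i z₀ hz₀g)
    (fun g hg β => HM.comm hiY hlam hinv hz₀ g hg β)
  -- it is the restriction of a combination of algebraic classes
  have hdF : T.dim (Y ⊗ Y) = T.dim Y + T.dim Y := T.dim_prod Y Y
  obtain ⟨y', hy', hy'x⟩ := HF.exists_lift hKV hSV hKF hSF i (by omega) (W.cl z₀)
    (W.unbundle.cl_mem_algSpan (X := Y ⊗ Y) hz₀g) α hα hαe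
  obtain ⟨m, c, g, hg⟩ := Submodule.mem_span_set'.1 hy'
  choose v hv hvg using fun l => (g l).2
  refine ⟨m, fun l => ρ (v l), c, fun l => HS.degree_cycle i (v l) (hv l), fun β hβ h0 => ?_⟩
  let φl : W'.unbundle.H X →ₗ[K] W.unbundle.H Y := PullPush.linearOfComb φ HS.linear
  have hφl : ∀ γ, φl γ = φ γ := fun _ => rfl
  have hφinj : ∀ γ, φl γ = 0 → γ = 0 := by
    intro γ hγ
    apply HS.bijective.1
    change φl γ = φl 0
    rw [hγ, map_zero]
  apply hφinj
  have hφβ : φl β ∈ W.unbundle.gr Y (2 * T.dim Y - i) := by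
    have := HS.degree _ β hβ
    rw [hdim] at this
    exact this
  have h2 : W.unbundle.corr (X := Y) (Y := Y) lam (φl β) = 0 := by
    have h3 : W.unbundle.corr (X := Y) (Y := Y) z₀ (φl β) =
        W.unbundle.corr (X := Y) (Y := Y) lam (φl β) := by
      rw [hz₀, W.unbundle.proj_same hφβ]
    rw [← h3]
    have h4 : W.unbundle.corr (X := Y) (Y := Y) z₀ (φl β) =
        W.unbundle.actH (X := Y) (W.unbundle.pull (X := Y ⊗ Y) (Y := V) e y') (φl β) := by
      rw [hy'x]; rfl
    have h5 : W.unbundle.actH (X := Y) (W.unbundle.pull (X := Y ⊗ Y) (Y := V) e y') (φl β) =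
        ∑ l, c l • W.unbundle.actH (X := Y) (W.unbundle.pull (X := Y ⊗ Y) (Y := V) e
          (W.unbundle.cl V (v l))) (φl β) := by
      rw [← hg]
      simp only [map_sum, map_smul, WeilUniform.WeilCohomology.actH_apply, Finset.sum_mul,
        smul_mul_assoc]
      refine Finset.sum_congr rfl fun l _ => ?_
      rw [← hvg l]
    have h6 := congrArg φl h0
    rw [map_zero, map_sum] at h6
    rw [h4, h5, ← h6]
    refine Finset.sum_congr rfl fun l _ => ?_
    rw [map_smul]
    congr 1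
    exact (HS.act (v l) β).symm
  have h7 := hinv.2 (φl β) hφβ
  have h8 : W.unbundle.act (X := Y) lam (φl β) = 0 := h2
  rw [h8, map_zero] at h7
  exact h7.symm

end single

variable {ι : Type t} {K : ι → Type x} [∀ ℓ, Field (K ℓ)] [∀ ℓ, CharZero (K ℓ)]
  (W' : ∀ ℓ, WeilCohomology.{v, u, w, x, y} T' (K ℓ)) (ℓ₀ : ι)
  {W : WeilCohomology.{v, u, w, x, y} T (K ℓ₀)} {Y V : 𝒱} {Z X : 𝒱'}

theorem HasModel.std (H : HasModel W (W' ℓ₀) Z Y V) (hY : W.StandardB Y) (hV : W.StandardB V)
    (hard : (W' ℓ₀).HasHardLefschetz Z)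
    (betti : ∀ ℓ, ∀ j ≤ T'.dim Z, (W' ℓ).betti Z j ≤ (W' ℓ₀).betti Z j) :
    Kun (fun ℓ => (W' ℓ).unbundle) Z ∧ (W' ℓ₀).unbundle.Std Z := by
  obtain ⟨h, hh, hard⟩ := hard
  exact kun_std_of_span (fun ℓ => (W' ℓ).unbundle) ℓ₀ h hh (fun j hj => hard j hj) betti
    (fun j hj => H.exists_comb hY hV hj)

/-- **Theorem.** Uniform inverse Lefschetz operators for the varieties dominated by the generic fibre
of a family. -/
theorem uniform_of_model (H : HasModel W (W' ℓ₀) Z Y V) (hY : W.StandardB Y) (hV : W.StandardB V)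
    (hard : (W' ℓ₀).HasHardLefschetz Z)
    (betti : ∀ ℓ, ∀ j ≤ T'.dim Z, (W' ℓ).betti Z j ≤ (W' ℓ₀).betti Z j)
    (f : Z ⟶ X) (hf : T'.GenericallyFinite f) (hG : (W' ℓ₀).HasDecomposition f) (i : ℕ)
    (hi : i ≤ T'.dim X) (h : T'.obj X) (hh : T'.InDegree 1 h)
    (hinj : ∃ ℓ, (W' ℓ).HardLefschetz h i) :
    ∃ z : T'.obj (X ⊗ X), T'.InDegree i z ∧ ∀ ℓ, (W' ℓ).IsLefschetzInverse h i z := by
  obtain ⟨ℓ₁, hinj⟩ := hinj
  obtain ⟨hKZ, hSZ⟩ := H.std W' ℓ₀ hY hV hard betti
  obtain ⟨hK, hS⟩ := std_image W' ℓ₀ f hf hG hKZ hSZ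
  exact uniform_of_std (fun ℓ => (W' ℓ).unbundle) hK ℓ₀ hS i hi h hh ℓ₁ hinj

end Pool.Agent.Weil
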