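import Mathlib
import Pool.Agent.Spread.Final

/-!
# The Lefschetz standard conjecture over an algebraically closed field follows from the conjecture
over a smaller one, in any characteristic

`𝒱` and `𝒱'` are categories with finite products together with intersection theories `T` and `T'` (the
formal properties of the Chow rings `CH(X)_ℚ` of smooth projective varieties over two algebraically
closed fields `k` and `k'`, where `k` is contained in `k'`), `(W' ℓ)_ℓ` is a family of Weil cohomology
theories for the varieties over `k'` and `W` is a Weil cohomology theory for the varieties over `k`.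
The example to have in mind is `ℓ`-adic cohomology. The notions are defined in
`Pool.Agent.WeilUniform.Defs`, `Pool.Agent.BBD.Defs`, `Pool.Agent.BBD.ClassDefs` and
`Pool.Agent.Spread.Defs`.
-/

open CategoryTheory MonoidalCategory CartesianMonoidalCategory

namespace Pool.Agent.Spread.SpreadingOut

open Pool.Agent.Weil

universe t v u w x y

/-- Fix *one* theory `ℓ₀` of the family. Let `Z` be a variety over `k'` which is the geometric generic
fibre of a family over a variety over `k` (whose function field is contained in `k'`), let `Y` be a
special fibre and let `V` be a smooth projective compactification of the fibre square of the family,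
so that `Y` and `V` are varieties over `k` (`HasModel`). Suppose that `Y` and `V` satisfy the
Lefschetz standard conjecture *for the theory `ℓ₀`*.

Let `f : Z ⟶ X` be a generically finite morphism with a perverse decomposition (decomposition theorem
of Beilinson, Bernstein, Deligne and Gabber; for instance the identity), let `i ≤ n = dim X` and let
`h` be any class in `CH¹(X)_ℚ` whose `i`-th Lefschetz operator is injective for one theory. Then there
is *one* cycle `z` in `CH^i(X × X)_ℚ` such that `z^*` is inverse to
`(-) ∪ h^{n-i} : H^i(X) ⟶ H^{2n-i}(X)` for *all* theories of the family simultaneously.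

By the theorems of de Jong on alterations every variety over `k'` is dominated by a variety `Z` with a
model `(Y, V)` over `k` if `k'` is an algebraic closure of the function field of a curve over
`k`. Hence question Q1 for all algebraically closed fields of a given characteristic `p` follows from
the Lefschetz standard conjecture over the algebraic closure of the field with `p` elements, for one
prime `ℓ₀`. -/
theorem result {𝒱 : Type u} [Category.{v} 𝒱] [CartesianMonoidalCategory 𝒱]
    {𝒱' : Type u} [Category.{v} 𝒱'] [CartesianMonoidalCategory 𝒱']
    (T : IntersectionTheory.{v, u, w} 𝒱) (T' : IntersectionTheory.{v, u, w} 𝒱')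
    {ι : Type t} (K : ι → Type x) [∀ ℓ, Field (K ℓ)] [∀ ℓ, CharZero (K ℓ)]
    (W' : ∀ ℓ, WeilCohomology.{v, u, w, x, y} T' (K ℓ)) (ℓ₀ : ι)
    (W : WeilCohomology.{v, u, w, x, y} T (K ℓ₀))
    (Y V : 𝒱) (hY : W.StandardB Y) (hV : W.StandardB V)
    (Z X : 𝒱') (hZ : HasModel W (W' ℓ₀) Z Y V) (hard : (W' ℓ₀).HasHardLefschetz Z)
    (betti : ∀ (ℓ : ι), ∀ j ≤ T'.dim Z, (W' ℓ).betti Z j ≤ (W' ℓ₀).betti Z j)
    (f : Z ⟶ X) (hf : T'.GenericallyFinite f) (hG : (W' ℓ₀).HasDecomposition f)
    (i : ℕ) (hi : i ≤ T'.dim X) (h : T'.obj X) (hh : T'.InDegree 1 h)
    (hinj : ∃ ℓ, (W' ℓ).HardLefschetz h i) :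
    ∃ z : T'.obj (X ⊗ X), T'.InDegree i z ∧ ∀ ℓ, (W' ℓ).IsLefschetzInverse h i z :=
  uniform_of_model W' ℓ₀ hZ hY hV hard betti f hf hG i hi h hh hinj

end Pool.Agent.Spread.SpreadingOut
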